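import Mathlib

/-!
# Cohomology of symmetric groups with coefficients in `FI_d`-modules (MP_93a4b1_al)

For every `d ≥ 2` and every field `k` of positive characteristic `p` there is a finitely generated
`FI_d`-module `V` over `k` such that `dim H⁰(S_n, V_n)` is the number of `0 ≤ a ≤ n` such that `p`
divides the binomial coefficient `n.choose a`; this is not eventually a quasi-polynomial in `n`.
-/

namespace Pool.Agent.Results.MP_93a4b1_al.NotQuasiPolynomial

open CategoryTheory

noncomputable section

/-! ### The category `FI_d` and its modules -/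

/-- The objects of the category `FI_d`: finite sets. -/
structure FI (d : ℕ) : Type 1 where
  /-- the underlying set -/
  carrier : Type
  [fin : Finite carrier]

attribute [instance] FI.fin

/-- A morphism `A → B` in `FI_d`: a pair `(g, h)` of an injection `g : A → B` and an arbitrary
function `h : B ∖ g(A) → [d]`. -/
structure FI.Hom {d : ℕ} (A B : FI d) : Type where
  /-- the injection -/
  g : A.carrier → B.carrier
  inj : Function.Injective g
  /-- the colouring of the complement of the image -/
  h : (b : B.carrier) → b ∉ Set.range g → Fin d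

variable {d : ℕ}

theorem FI.Hom.ext' {A B : FI d} {φ ψ : FI.Hom A B} (hg : φ.g = ψ.g)
    (hh : ∀ b hb hb', φ.h b hb = ψ.h b hb') : φ = ψ := by
  obtain ⟨g, inj, h⟩ := φ
  obtain ⟨g', inj', h'⟩ := ψ
  dsimp only at hg hh
  subst hg
  congr 1
  funext b hb
  exact hh b hb hb

open Classical in
/-- Composition in `FI_d`: composition of injections, each new point keeping the colour it was
given. -/
def FI.Hom.comp {A B C : FI d} (φ : FI.Hom A B) (ψ : FI.Hom B C) : FI.Hom A C where
  g := ψ.g ∘ φ.g
  inj := ψ.inj.comp φ.inj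
  h c hc := if hB : c ∈ Set.range ψ.g then
      φ.h hB.choose (fun hA => hc ⟨hA.choose, by
        rw [Function.comp_apply, hA.choose_spec, hB.choose_spec]⟩)
    else ψ.h c hB

theorem FI.Hom.comp_h_mem {A B C : FI d} (φ : FI.Hom A B) (ψ : FI.Hom B C) (b : B.carrier)
    (hb : b ∉ Set.range φ.g) (hc : ψ.g b ∉ Set.range (φ.comp ψ).g) :
    (φ.comp ψ).h (ψ.g b) hc = φ.h b hb := by
  have hB : ψ.g b ∈ Set.range ψ.g := ⟨b, rfl⟩
  have h1 : hB.choose = b := ψ.inj hB.choose_spec
  simp only [FI.Hom.comp, dif_pos hB]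
  congr 1

theorem FI.Hom.comp_h_not_mem {A B C : FI d} (φ : FI.Hom A B) (ψ : FI.Hom B C) (c : C.carrier)
    (hB : c ∉ Set.range ψ.g) (hc : c ∉ Set.range (φ.comp ψ).g) :
    (φ.comp ψ).h c hc = ψ.h c hB := by
  simp only [FI.Hom.comp, dif_neg hB]

/-- The identity morphism of `FI_d` (the complement is empty). -/
def FI.Hom.id (A : FI d) : FI.Hom A A where
  g := fun a => a
  inj := fun _ _ h => h
  h b hb := absurd ⟨b, rfl⟩ hb

instance : Category (FI d) where
  Hom A B := FI.Hom A B
  id A := FI.Hom.id A
  comp φ ψ := φ.comp ψ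
  id_comp {A B} φ := by
    refine FI.Hom.ext' rfl ?_
    intro b hb hb'
    exact FI.Hom.comp_h_not_mem _ _ _ hb' hb
  comp_id {A B} φ := by
    refine FI.Hom.ext' rfl ?_
    intro b hb hb'
    exact FI.Hom.comp_h_mem φ (FI.Hom.id B) b hb' hb
  assoc {A B C D} φ ψ χ := by
    refine FI.Hom.ext' rfl ?_
    intro x hx hx'
    by_cases h1 : x ∈ Set.range χ.g
    · obtain ⟨c, rfl⟩ := h1
      have hc : c ∉ Set.range (φ.comp ψ).g := by
        rintro ⟨a, rfl⟩
        exact hx ⟨a, rfl⟩
      rw [FI.Hom.comp_h_mem (φ.comp ψ) χ c hc hx]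
      by_cases h2 : c ∈ Set.range ψ.g
      · obtain ⟨b, rfl⟩ := h2
        have hb : b ∉ Set.range φ.g := by
          rintro ⟨a, rfl⟩
          exact hc ⟨a, rfl⟩
        rw [FI.Hom.comp_h_mem φ ψ b hb hc]
        exact (FI.Hom.comp_h_mem φ (ψ.comp χ) b hb hx').symm
      · rw [FI.Hom.comp_h_not_mem φ ψ c h2 hc]
        have h3 : χ.g c ∉ Set.range (ψ.comp χ).g := by
          rintro ⟨b, hb⟩
          exact h2 ⟨b, χ.inj hb⟩
        rw [FI.Hom.comp_h_not_mem φ (ψ.comp χ) _ h3 hx']
        exact (FI.Hom.comp_h_mem ψ χ c h2 h3).symm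
    · rw [FI.Hom.comp_h_not_mem (φ.comp ψ) χ x h1 hx]
      have h3 : x ∉ Set.range (ψ.comp χ).g := by
        rintro ⟨b, hb⟩
        exact h1 ⟨ψ.g b, hb⟩
      rw [FI.Hom.comp_h_not_mem φ (ψ.comp χ) _ h3 hx', FI.Hom.comp_h_not_mem ψ χ x h1 h3]

/-- The object `[n]` of `FI_d`. -/
abbrev FI.std (d n : ℕ) : FI d := ⟨Fin n⟩

/-- The automorphism `(σ, ∅)` of `[n]` in `FI_d`. -/
def FI.perm (d : ℕ) {n : ℕ} (σ : Equiv.Perm (Fin n)) : FI.std d n ⟶ FI.std d n :=
  { g := σ
    inj := σ.injective
    h := fun b hb => absurd (σ.surjective b) hb : FI.Hom (FI.std d n) (FI.std d n) }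

variable {k : Type} [Field k]

/-- The functor `V : FI_d ⥤ k`-vector spaces is finitely generated: there are finitely many elements
`v_i ∈ V_{n_i}` such that the only subfunctor of `V` containing all of them is `V`. -/
def IsFinitelyGenerated (V : FI d ⥤ ModuleCat.{0} k) : Prop :=
  ∃ (m : ℕ) (n : Fin m → ℕ) (v : ∀ i, V.obj (FI.std d (n i))),
    ∀ W : ∀ A : FI d, Submodule k (V.obj A),
      (∀ (A B : FI d) (φ : A ⟶ B), ∀ x ∈ W A, (V.map φ).hom x ∈ W B) →
      (∀ i, v i ∈ W (FI.std d (n i))) → ∀ A, W A = ⊤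

/-- The representation of the symmetric group `S_n` on `V_n = V([n])`. -/
def symRep (V : FI d ⥤ ModuleCat.{0} k) (n : ℕ) :
    Representation k (Equiv.Perm (Fin n)) (V.obj (FI.std d n)) where
  toFun σ := (V.map (FI.perm d σ)).hom
  map_one' := by
    have h : FI.perm d (1 : Equiv.Perm (Fin n)) = 𝟙 (FI.std d n) :=
      FI.Hom.ext' rfl (fun b hb _ => absurd ⟨b, rfl⟩ hb)
    rw [h, V.map_id]
    rfl
  map_mul' σ τ := by
    have h : FI.perm d (σ * τ) = FI.perm d τ ≫ FI.perm d σ :=
      FI.Hom.ext' rfl (fun b hb _ => absurd ((σ * τ).surjective b) hb)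
    rw [h, V.map_comp]
    rfl

/-- `f` agrees with a quasi-polynomial for all sufficiently large arguments. -/
def EventuallyQuasiPolynomial (f : ℕ → ℕ) : Prop :=
  ∃ (N : ℕ) (_ : 1 ≤ N) (P : ℕ → Polynomial ℚ) (n₀ : ℕ),
    ∀ n, n₀ ≤ n → (f n : ℚ) = (P (n % N)).eval (n : ℚ)

/-! ### The counterexample -/

/-- The number of points of colour `true`. -/
def count {α : Type} (c : α → Bool) : ℕ := {a | c a = true}.ncard

open Classical in
/-- Push a two-colouring forward along a morphism of `FI_d`: new points get the colour `true` if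
they carry the first colour and `false` otherwise. -/
def push {A B : FI d} (φ : FI.Hom A B) (c : A.carrier → Bool) : B.carrier → Bool := fun b =>
  if hb : b ∈ Set.range φ.g then c hb.choose else decide ((φ.h b hb).val = 0)

theorem push_mem {A B : FI d} (φ : FI.Hom A B) (c : A.carrier → Bool) (a : A.carrier) :
    push φ c (φ.g a) = c a := by
  have hB : φ.g a ∈ Set.range φ.g := ⟨a, rfl⟩
  have h1 : hB.choose = a := φ.inj hB.choose_spec
  simp only [push, dif_pos hB, h1]

theorem push_not_mem {A B : FI d} (φ : FI.Hom A B) (c : A.carrier → Bool) (b : B.carrier)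
    (hb : b ∉ Set.range φ.g) : push φ c b = decide ((φ.h b hb).val = 0) := by
  simp only [push, dif_neg hb]

theorem push_id (A : FI d) (c : A.carrier → Bool) : push (FI.Hom.id A) c = c := by
  funext a
  exact push_mem (FI.Hom.id A) c a

theorem push_comp {A B C : FI d} (φ : FI.Hom A B) (ψ : FI.Hom B C) (c : A.carrier → Bool) :
    push (φ.comp ψ) c = push ψ (push φ c) := by
  funext x
  by_cases h1 : x ∈ Set.range ψ.g
  · obtain ⟨b, rfl⟩ := h1
    rw [push_mem]
    by_cases h2 : b ∈ Set.range φ.g
    · obtain ⟨a, rfl⟩ := h2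
      rw [push_mem]
      exact push_mem (φ.comp ψ) c a
    · have hc : ψ.g b ∉ Set.range (φ.comp ψ).g := by
        rintro ⟨a, ha⟩
        exact h2 ⟨a, ψ.inj ha⟩
      rw [push_not_mem _ _ _ hc, push_not_mem _ _ _ h2, FI.Hom.comp_h_mem φ ψ b h2 hc]
  · have hc : x ∉ Set.range (φ.comp ψ).g := by
      rintro ⟨a, ha⟩
      exact h1 ⟨_, ha⟩
    rw [push_not_mem _ _ _ hc, push_not_mem _ _ _ h1, FI.Hom.comp_h_not_mem φ ψ x h1 hc]

theorem count_push {A B : FI d} (φ : FI.Hom A B) (c : A.carrier → Bool) :
    count (push φ c) = count c +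
      {b | ∃ hb : b ∉ Set.range φ.g, (φ.h b hb).val = 0}.ncard := by
  unfold count
  have h1 : {b | push φ c b = true} = φ.g '' {a | c a = true} ∪
      {b | ∃ hb : b ∉ Set.range φ.g, (φ.h b hb).val = 0} := by
    ext b
    by_cases hb : b ∈ Set.range φ.g
    · obtain ⟨a, rfl⟩ := hb
      simp only [Set.mem_setOf_eq, push_mem, Set.mem_union, Set.mem_image, Set.mem_range,
        exists_apply_eq_apply, not_true_eq_false, IsEmpty.exists_iff, or_false]
      constructor
      · intro h
        exact ⟨a, h, rfl⟩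
      · rintro ⟨a', h, h'⟩
        rwa [← φ.inj h']
    · simp only [Set.mem_setOf_eq, push_not_mem φ c b hb, decide_eq_true_eq, Set.mem_union,
        Set.mem_image]
      constructor
      · intro h
        exact Or.inr ⟨hb, h⟩
      · rintro (⟨a, _, rfl⟩ | ⟨_, h⟩)
        · exact absurd ⟨a, rfl⟩ hb
        · exact h
  rw [h1, Set.ncard_union_eq, Set.ncard_image_of_injective _ φ.inj]
  rw [Set.disjoint_left]
  rintro b ⟨a, _, rfl⟩ ⟨hb, _⟩
  exact hb ⟨a, rfl⟩

variable (k) in
/-- The space `V(A)`: combinations of two-colourings of `A` such that for all `m` the coefficients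
of the colourings with `m` points of colour `true` add up to zero. -/
def kerSub (A : FI d) : Submodule k ((A.carrier → Bool) →₀ k) :=
  LinearMap.ker (Finsupp.lmapDomain k k (count (α := A.carrier)))

theorem mem_kerSub {A : FI d} (x : (A.carrier → Bool) →₀ k) :
    x ∈ kerSub k A ↔ Finsupp.mapDomain (count (α := A.carrier)) x = 0 := Iff.rfl

theorem push_mem_kerSub {A B : FI d} (φ : FI.Hom A B) (x : (A.carrier → Bool) →₀ k)
    (hx : x ∈ kerSub k A) : Finsupp.lmapDomain k k (push φ) x ∈ kerSub k B := by
  rw [mem_kerSub] at hx ⊢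
  rw [Finsupp.lmapDomain_apply, ← Finsupp.mapDomain_comp]
  have h1 : (count (α := B.carrier) ∘ push φ) =
      (fun m => m + {b | ∃ hb : b ∉ Set.range φ.g, (φ.h b hb).val = 0}.ncard) ∘
        count (α := A.carrier) := by
    funext c
    exact count_push φ c
  rw [h1, Finsupp.mapDomain_comp, hx, Finsupp.mapDomain_zero]

variable (k d) in
/-- The `FI_d`-module `V`. -/
def modV : FI d ⥤ ModuleCat.{0} k where
  obj A := ModuleCat.of k (kerSub k A)
  map {A B} φ := ModuleCat.ofHom
    ((Finsupp.lmapDomain k k (push φ)).restrict (p := kerSub k A) (q := kerSub k B)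
      (push_mem_kerSub φ))
  map_id A := by
    refine ModuleCat.hom_ext (LinearMap.ext fun x => Subtype.ext ?_)
    change Finsupp.mapDomain (push (FI.Hom.id A)) x.1 = x.1
    have : push (FI.Hom.id A) = id := by
      funext c
      exact push_id A c
    rw [this, Finsupp.mapDomain_id]
  map_comp {A B C} φ ψ := by
    refine ModuleCat.hom_ext (LinearMap.ext fun x => Subtype.ext ?_)
    change Finsupp.mapDomain (push (FI.Hom.comp φ ψ)) x.1 =
      Finsupp.mapDomain (push ψ) (Finsupp.mapDomain (push φ) x.1)
    have : push (FI.Hom.comp φ ψ) = push ψ ∘ push φ := by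
      funext c
      exact push_comp φ ψ c
    rw [this, Finsupp.mapDomain_comp]

/-! ### Finite generation -/

/-- the difference of two colourings with equal counts -/
def dif {A : FI d} (c c' : A.carrier → Bool) : (A.carrier → Bool) →₀ k :=
  Finsupp.single c 1 - Finsupp.single c' 1

theorem dif_mem {A : FI d} (c c' : A.carrier → Bool) (h : count c = count c') :
    (dif c c' : (A.carrier → Bool) →₀ k) ∈ kerSub k A := by
  have h2 : (dif c c' : (A.carrier → Bool) →₀ k) = Finsupp.single c 1 - Finsupp.single c' 1 := rfl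
  change Finsupp.lmapDomain k k _ _ = 0
  rw [h2, map_sub, Finsupp.lmapDomain_apply, Finsupp.lmapDomain_apply, Finsupp.mapDomain_single,
    Finsupp.mapDomain_single, h, sub_self]

/-- the colouring `(true, false)` of `[2]` -/
def c10 : (FI.std d 2).carrier → Bool := fun i : Fin 2 => decide (i = 0)

/-- the colouring `(false, true)` of `[2]` -/
def c01 : (FI.std d 2).carrier → Bool := fun i : Fin 2 => decide (i = 1)

theorem count_c10 : count (c10 (d := d)) = 1 := by
  have : {a : (FI.std d 2).carrier | c10 a = true} = {(0 : Fin 2)} := by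
    ext i
    simp [c10]
  rw [count, this]
  exact Set.ncard_singleton _

theorem count_c01 : count (c01 (d := d)) = 1 := by
  have : {a : (FI.std d 2).carrier | c01 a = true} = {(1 : Fin 2)} := by
    ext i
    simp [c01]
  rw [count, this]
  exact Set.ncard_singleton _

/-- the generator -/
def gen : kerSub k (FI.std d 2) := ⟨dif c10 c01, dif_mem _ _ (by rw [count_c10, count_c01])⟩

/-- The morphism `[2] → B` with image `{i, j}`, colouring the complement as prescribed. -/
def twoHom (hd : 2 ≤ d) {B : FI d} (i j : B.carrier) (hij : i ≠ j) (c : B.carrier → Bool) :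
    FI.Hom (FI.std d 2) B where
  g := fun a : Fin 2 => if a = 0 then i else j
  inj := by
    intro a b
    change Fin 2 at a
    change Fin 2 at b
    fin_cases a <;> fin_cases b <;> simp [hij, hij.symm]
  h := fun b _ => if c b = true then ⟨0, by omega⟩ else ⟨1, by omega⟩

theorem push_twoHom (hd : 2 ≤ d) {B : FI d} (i j : B.carrier) (hij : i ≠ j) (c : B.carrier → Bool)
    (e : (FI.std d 2).carrier → Bool) (c' : B.carrier → Bool)
    (hi : c' i = e (0 : Fin 2)) (hj : c' j = e (1 : Fin 2)) (hc : ∀ b, b ≠ i → b ≠ j → c' b = c b) :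
    push (twoHom hd i j hij c) e = c' := by
  funext b
  by_cases hbi : b = i
  · subst hbi
    have := push_mem (twoHom hd b j hij c) e (0 : Fin 2)
    rw [hi, ← this]
    rfl
  · by_cases hbj : b = j
    · subst hbj
      have := push_mem (twoHom hd i b hij c) e (1 : Fin 2)
      rw [hj, ← this]
      rfl
    · have hb : b ∉ Set.range (twoHom hd i j hij c).g := by
        rintro ⟨a, ha⟩
        change Fin 2 at a
        change (if a = 0 then i else j) = b at ha
        split_ifs at ha with h
        · exact hbi ha.symm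
        · exact hbj ha.symm
      rw [push_not_mem _ _ _ hb, hc b hbi hbj]
      change decide ((if c b = true then (⟨0, by omega⟩ : Fin d) else ⟨1, by omega⟩).val = 0) = _
      cases c b <;> simp

section span

variable (hd : 2 ≤ d) (W : ∀ A : FI d, Submodule k ((modV d k).obj A))
  (hW : ∀ (A B : FI d) (φ : A ⟶ B), ∀ x ∈ W A, ((modV d k).map φ).hom x ∈ W B)
  (hgen : (gen : kerSub k (FI.std d 2)) ∈ W (FI.std d 2))

/-- the image of `W B` in the space of all combinations of colourings -/
def img (W : ∀ A : FI d, Submodule k ((modV d k).obj A)) (B : FI d) :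
    Submodule k ((B.carrier → Bool) →₀ k) :=
  Submodule.map (kerSub k B).subtype (W B)

include hW hgen in
theorem dif_push_mem {B : FI d} (φ : FI.Hom (FI.std d 2) B) :
    (dif (push φ c10) (push φ c01) : (B.carrier → Bool) →₀ k) ∈ img W B := by
  refine ⟨_, hW _ _ φ _ hgen, ?_⟩
  change Finsupp.lmapDomain k k (push φ) (dif c10 c01) = _
  have h2 : (dif c10 c01 : ((FI.std d 2).carrier → Bool) →₀ k) =
    Finsupp.single c10 1 - Finsupp.single c01 1 := rfl
  rw [h2, map_sub, Finsupp.lmapDomain_apply, Finsupp.lmapDomain_apply, Finsupp.mapDomain_single,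
    Finsupp.mapDomain_single]
  rfl

theorem dif_self {B : FI d} (c : B.carrier → Bool) :
    (dif c c : (B.carrier → Bool) →₀ k) = 0 := sub_self _

theorem dif_swap {B : FI d} (c c' : B.carrier → Bool) :
    (dif c c' : (B.carrier → Bool) →₀ k) = - dif c' c := (neg_sub _ _).symm

include hd hW hgen in
open Classical in
theorem dif_swap_mem {B : FI d} (i j : B.carrier) (hij : i ≠ j) (c : B.carrier → Bool) :
    (dif c (c ∘ Equiv.swap i j) : (B.carrier → Bool) →₀ k) ∈ img W B := by
  have hother : ∀ b, b ≠ i → b ≠ j → (c ∘ Equiv.swap i j) b = c b := by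
    intro b hbi hbj
    rw [Function.comp_apply, Equiv.swap_apply_of_ne_of_ne hbi hbj]
  have hi : (c ∘ Equiv.swap i j) i = c j := by
    rw [Function.comp_apply, Equiv.swap_apply_left]
  have hj : (c ∘ Equiv.swap i j) j = c i := by
    rw [Function.comp_apply, Equiv.swap_apply_right]
  have e0 : c10 (d := d) (0 : Fin 2) = true := rfl
  have e1 : c10 (d := d) (1 : Fin 2) = false := rfl
  have e2 : c01 (d := d) (0 : Fin 2) = false := rfl
  have e3 : c01 (d := d) (1 : Fin 2) = true := rfl
  rcases hci : c i with _ | _ <;> rcases hcj : c j with _ | _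
  · have h1 : c ∘ Equiv.swap i j = c := by
      funext b
      by_cases hbi : b = i
      · subst hbi; rw [hi, hci, hcj]
      · by_cases hbj : b = j
        · subst hbj; rw [hj, hci, hcj]
        · exact hother b hbi hbj
    rw [h1, dif_self]
    exact Submodule.zero_mem _
  · have h1 := push_twoHom hd i j hij c c10 (c ∘ Equiv.swap i j)
      (by rw [hi, hcj, e0]) (by rw [hj, hci, e1]) hother
    have h2 := push_twoHom hd i j hij c c01 c
      (by rw [hci, e2]) (by rw [hcj, e3]) (fun _ _ _ => rfl)
    have h3 := dif_push_mem W hW hgen (twoHom hd i j hij c)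
    rw [h1, h2] at h3
    rw [dif_swap]
    exact Submodule.neg_mem _ h3
  · have h1 := push_twoHom hd i j hij c c10 c
      (by rw [hci, e0]) (by rw [hcj, e1]) (fun _ _ _ => rfl)
    have h2 := push_twoHom hd i j hij c c01 (c ∘ Equiv.swap i j)
      (by rw [hi, hcj, e2]) (by rw [hj, hci, e3]) hother
    have h3 := dif_push_mem W hW hgen (twoHom hd i j hij c)
    rw [h1, h2] at h3
    exact h3
  · have h1 : c ∘ Equiv.swap i j = c := by
      funext b
      by_cases hbi : b = i
      · subst hbi; rw [hi, hci, hcj]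
      · by_cases hbj : b = j
        · subst hbj; rw [hj, hci, hcj]
        · exact hother b hbi hbj
    rw [h1, dif_self]
    exact Submodule.zero_mem _

include hd hW hgen in
theorem dif_perm_mem {B : FI d} (σ : Equiv.Perm B.carrier) (c : B.carrier → Bool) :
    (dif c (c ∘ σ) : (B.carrier → Bool) →₀ k) ∈ img W B := by
  classical
  induction σ using Equiv.Perm.swap_induction_on generalizing c with
  | one =>
    have : c ∘ ((1 : Equiv.Perm B.carrier) : B.carrier → B.carrier) = c := rfl
    rw [this, dif_self]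
    exact Submodule.zero_mem _
  | swap_mul τ x y hxy ih =>
    have h1 : c ∘ ((Equiv.swap x y * τ : Equiv.Perm B.carrier) : B.carrier → B.carrier) =
      (c ∘ Equiv.swap x y) ∘ τ := rfl
    have h2 : (dif c ((c ∘ Equiv.swap x y) ∘ τ) : (B.carrier → Bool) →₀ k) =
        dif c (c ∘ Equiv.swap x y) + dif (c ∘ Equiv.swap x y) ((c ∘ Equiv.swap x y) ∘ τ) := by
      unfold dif
      abel
    rw [h1, h2]
    refine Submodule.add_mem _ ?_ (ih _)
    have h3 := dif_swap_mem hd W hW hgen x y hxy c
    convert h3

theorem exists_perm {B : FI d} (c c' : B.carrier → Bool) (h : count c = count c') :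
    ∃ σ : Equiv.Perm B.carrier, c' = c ∘ σ := by
  classical
  have : Fintype B.carrier := Fintype.ofFinite _
  have h1 : Nat.card {b // c' b = true} = Nat.card {b // c b = true} := h.symm
  rw [Nat.card_eq_fintype_card, Nat.card_eq_fintype_card] at h1
  have e : {b // c' b = true} ≃ {b // c b = true} := Fintype.equivOfCardEq h1
  refine ⟨e.extendSubtype, ?_⟩
  funext b
  by_cases hb : c' b = true
  · rw [Function.comp_apply, e.extendSubtype_mem b hb, hb]
  · have := e.extendSubtype_not_mem b hb
    rw [Function.comp_apply]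
    rw [Bool.not_eq_true] at this hb
    rw [this, hb]

include hd hW hgen in
theorem dif_mem_img {B : FI d} (c c' : B.carrier → Bool) (h : count c = count c') :
    (dif c c' : (B.carrier → Bool) →₀ k) ∈ img W B := by
  obtain ⟨σ, rfl⟩ := exists_perm c c' h
  exact dif_perm_mem hd W hW hgen σ c

include hd hW hgen in
theorem W_eq_top (B : FI d) : W B = ⊤ := by
  classical
  rw [Submodule.eq_top_iff']
  intro x
  change kerSub k B at x
  -- a representative of each count
  let rep : ℕ → (B.carrier → Bool) := fun m =>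
    if h : ∃ c : B.carrier → Bool, count c = m then h.choose else fun _ => true
  have hrep : ∀ c : B.carrier → Bool, count c = count (rep (count c)) := by
    intro c
    have h : ∃ c' : B.carrier → Bool, count c' = count c := ⟨c, rfl⟩
    simp only [rep, dif_pos h]
    exact h.choose_spec.symm
  have h1 : x.1 = x.1.sum (fun c a => a • (dif c (rep (count c)) : (B.carrier → Bool) →₀ k)) := by
    have h2 : x.1.sum (fun c a => a • (dif c (rep (count c)) : (B.carrier → Bool) →₀ k)) =
        x.1.sum (fun c a => Finsupp.single c a) -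
          x.1.sum (fun c a => Finsupp.single (rep (count c)) a) := by
      rw [← Finsupp.sum_sub]
      refine Finsupp.sum_congr ?_
      intro c _
      unfold dif
      rw [smul_sub, Finsupp.smul_single, Finsupp.smul_single, smul_eq_mul, mul_one]
    have h3 : x.1.sum (fun c a => Finsupp.single (rep (count c)) a) =
        Finsupp.mapDomain (rep ∘ count (α := B.carrier)) x.1 := rfl
    rw [h2, Finsupp.sum_single, h3, Finsupp.mapDomain_comp, (mem_kerSub x.1).1 x.2,
      Finsupp.mapDomain_zero, sub_zero]
  have h2 : x.1 ∈ img W B := by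
    rw [h1]
    refine Submodule.sum_mem _ ?_
    intro c _
    exact Submodule.smul_mem _ _ (dif_mem_img hd W hW hgen _ _ (hrep c))
  obtain ⟨y, hy, hyx⟩ := h2
  have h3 : y = x := Subtype.ext hyx
  rwa [← h3]

end span

theorem modV_fg (hd : 2 ≤ d) : IsFinitelyGenerated (modV d k) :=
  ⟨1, fun _ => 2, fun _ => (gen : kerSub k (FI.std d 2)),
    fun W hW hgen A => W_eq_top hd W hW (hgen 0) A⟩

/-! ### The invariants -/

section invariants

variable {n : ℕ}

theorem push_perm (σ : Equiv.Perm (Fin n)) (c : Fin n → Bool) :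
    push (FI.perm d σ) c = fun i : Fin n => c (σ⁻¹ i) := by
  funext i
  obtain ⟨j, rfl⟩ := σ.surjective i
  have h := push_mem (FI.perm d σ) c j
  refine (Eq.trans h ?_)
  simp

/-- the standard colouring with `m` points coloured `true` -/
def stdCol (n m : ℕ) : Fin n → Bool := fun i => decide (i.val < m)

theorem count_stdCol (m : ℕ) (hm : m ≤ n) : count (stdCol n m) = m := by
  unfold count
  have h1 : {a | stdCol n m a = true} =
      ((Finset.univ.filter (fun i : Fin n => i.val < m) : Finset (Fin n)) : Set (Fin n)) := by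
    ext i
    simp [stdCol]
  rw [h1, Set.ncard_coe_finset, Fin.card_filter_val_lt]
  exact min_eq_right hm

theorem count_le (c : Fin n → Bool) : count c ≤ n := by
  have h := Set.ncard_le_card {a : Fin n | c a = true}
  rwa [Nat.card_fin n] at h

theorem card_count (m : ℕ) :
    (Finset.univ.filter (fun c : Fin n → Bool => count c = m)).card = n.choose m := by
  classical
  have h1 : ((Finset.univ : Finset (Fin n)).powersetCard m).card = n.choose m := by
    rw [Finset.card_powersetCard, Finset.card_univ, Fintype.card_fin]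
  rw [← h1]
  refine Finset.card_bij' (fun c _ => Finset.univ.filter (fun i : Fin n => c i = true))
    (fun s _ => fun i : Fin n => decide (i ∈ s)) ?_ ?_ ?_ ?_
  · intro c hc
    rw [Finset.mem_filter] at hc
    rw [Finset.mem_powersetCard]
    refine ⟨Finset.subset_univ _, ?_⟩
    rw [← hc.2, count]
    rw [← Set.ncard_coe_finset]
    congr 1
    ext i
    simp
  · intro s hs
    rw [Finset.mem_powersetCard] at hs
    rw [Finset.mem_filter]
    refine ⟨Finset.mem_univ _, ?_⟩
    rw [← hs.2, count]
    rw [← Set.ncard_coe_finset]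
    congr 1
    ext i
    simp
  · intro c _
    funext i
    simp
  · intro s _
    ext i
    simp

/-- the coefficient sums of a function of the count -/
theorem mapDomain_count_apply (x : (Fin n → Bool) →₀ k) (y : ℕ → k)
    (hx : ∀ c, x c = y (count c)) (m : ℕ) :
    Finsupp.mapDomain count x m = (n.choose m : k) * y m := by
  classical
  have h1 : Finsupp.mapDomain count x m = ∑ c : Fin n → Bool, if count c = m then x c else 0 := by
    rw [Finsupp.mapDomain, Finsupp.sum_apply, Finsupp.sum_fintype]
    · refine Finset.sum_congr rfl fun c _ => ?_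
      rw [Finsupp.single_apply]
    · intro c
      simp
  rw [h1, ← Finset.sum_filter]
  have h2 : ∀ c ∈ Finset.univ.filter (fun c : Fin n → Bool => count c = m), x c = y m := by
    intro c hc
    rw [Finset.mem_filter] at hc
    rw [hx, hc.2]
  rw [Finset.sum_congr rfl h2, Finset.sum_const, card_count, nsmul_eq_mul]

/-- `symRep (modV d k) n` with its space written out. -/
def concRep (d : ℕ) (k : Type) [Field k] (n : ℕ) :
    Representation k (Equiv.Perm (Fin n)) (kerSub k (FI.std d n)) := symRep (modV d k) n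

theorem concRep_apply (σ : Equiv.Perm (Fin n)) (x : kerSub k (FI.std d n)) :
    (concRep d k n σ x).1 = Finsupp.mapDomain (push (FI.perm d σ)) x.1 := rfl

theorem concRep_iff (σ : Equiv.Perm (Fin n)) (x : kerSub k (FI.std d n)) :
    concRep d k n σ x = x ↔ ∀ c : Fin n → Bool, x.1 c = x.1 (c ∘ σ) := by
  have h1 : (concRep d k n σ x = x) ↔
      Finsupp.mapDomain (push (FI.perm d σ)) x.1 = x.1 := by
    rw [← concRep_apply]
    exact Subtype.ext_iff
  have hp : (push (FI.perm d σ) : (Fin n → Bool) → (Fin n → Bool)) = fun c => c ∘ ⇑σ⁻¹ := by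
    funext c
    exact push_perm σ c
  have hinj : Function.Injective (fun c : Fin n → Bool => c ∘ ⇑σ⁻¹) := by
    intro a b hab
    funext i
    have := congrFun hab (σ i)
    simpa using this
  rw [h1, hp]
  constructor
  · intro h c
    have h2 := Finsupp.mapDomain_apply hinj x.1 (c ∘ σ)
    rw [h] at h2
    have h3 : (c ∘ ⇑σ) ∘ ⇑σ⁻¹ = c := by
      funext i
      simp
    rw [h3] at h2
    exact h2
  · intro h
    ext c
    have h3 : c = (fun c : Fin n → Bool => c ∘ ⇑σ⁻¹) (c ∘ ⇑σ) := by
      funext i
      simp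
    conv_lhs => rw [h3]
    rw [Finsupp.mapDomain_apply hinj]
    exact (h c).symm

theorem count_comp (σ : Equiv.Perm (Fin n)) (c : Fin n → Bool) : count (c ∘ σ) = count c := by
  unfold count
  have h : {a | (c ∘ σ) a = true} = σ ⁻¹' {a | c a = true} := rfl
  rw [h]
  exact Set.ncard_preimage_of_injective_subset_range σ.injective (by simp [σ.surjective.range_eq])

/-- the invariants -/
def invSub (d : ℕ) (k : Type) [Field k] (n : ℕ) : Submodule k (kerSub k (FI.std d n)) where
  carrier := {x | ∀ σ, concRep d k n σ x = x}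
  zero_mem' σ := map_zero _
  add_mem' {x y} hx hy σ := by rw [map_add, hx σ, hy σ]
  smul_mem' r x hx σ := by rw [map_smul, hx σ]

theorem invariant_iff (x : kerSub k (FI.std d n)) :
    x ∈ invSub d k n ↔ ∀ c : Fin n → Bool, x.1 c = x.1 (stdCol n (count c)) := by
  change (∀ σ, concRep d k n σ x = x) ↔ _
  constructor
  · intro h c
    have h2 : count c = count (stdCol n (count c)) := (count_stdCol _ (count_le c)).symm
    obtain ⟨σ, hσ⟩ := exists_perm (B := FI.std d n) c (stdCol n (count c)) h2
    rw [hσ]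
    exact (concRep_iff σ x).1 (h σ) c
  · intro h σ
    rw [concRep_iff]
    intro c
    rw [h c, h (c ∘ σ), count_comp]

/-- the invariants are the functions on `{m ≤ n : (n choose m) = 0 in k}` -/
def evalMap (d : ℕ) (k : Type) [Field k] (n : ℕ) :
    invSub d k n →ₗ[k] ({m : Fin (n + 1) // ((n.choose m : ℕ) : k) = 0} → k) where
  toFun x := fun m => x.1.1 (stdCol n m.1)
  map_add' x y := by
    funext m
    rfl
  map_smul' a x := by
    funext m
    rfl

theorem coeff_eq_zero (x : kerSub k (FI.std d n)) (hx : x ∈ invSub d k n) (m : ℕ)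
    (hc : ((n.choose m : ℕ) : k) ≠ 0) : x.1 (stdCol n m) = 0 := by
  have h1 := (invariant_iff x).1 hx
  have h3 := mapDomain_count_apply x.1 (fun m => x.1 (stdCol n m)) h1 m
  have h4 : Finsupp.mapDomain count x.1 = 0 := x.2
  rw [h4, Finsupp.zero_apply] at h3
  rcases mul_eq_zero.mp h3.symm with h5 | h5
  · exact absurd h5 hc
  · exact h5

theorem evalMap_injective : Function.Injective (evalMap d k n) := by
  intro x y hxy
  have h2 : ∀ m : ℕ, m ≤ n → x.1.1 (stdCol n m) = y.1.1 (stdCol n m) := by
    intro m hm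
    by_cases hc : ((n.choose m : ℕ) : k) = 0
    · exact congrFun hxy ⟨⟨m, by omega⟩, hc⟩
    · rw [coeff_eq_zero x.1 x.2 m hc, coeff_eq_zero y.1 y.2 m hc]
  apply Subtype.ext
  apply Subtype.ext
  ext c
  have h3 := (invariant_iff x.1).1 x.2 c
  have h4 := (invariant_iff y.1).1 y.2 c
  rw [h3, h4]
  exact h2 _ (count_le c)

theorem evalMap_surjective : Function.Surjective (evalMap d k n) := by
  classical
  intro y
  let y' : ℕ → k := fun m => if h : ∃ h : m < n + 1, ((n.choose m : ℕ) : k) = 0 then
    y ⟨⟨m, h.1⟩, h.2⟩ else 0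
  let x : (Fin n → Bool) →₀ k := Finsupp.equivFunOnFinite.symm (fun c => y' (count c))
  have hx : ∀ c, x c = y' (count c) := fun c => rfl
  have hmem : x ∈ kerSub k (FI.std d n) := by
    rw [mem_kerSub]
    ext m
    rw [mapDomain_count_apply x y' hx m, Finsupp.zero_apply]
    by_cases h : ∃ h : m < n + 1, ((n.choose m : ℕ) : k) = 0
    · rw [h.2, zero_mul]
    · have : y' m = 0 := dif_neg h
      rw [this, mul_zero]
  have hinv : (⟨x, hmem⟩ : kerSub k (FI.std d n)) ∈ invSub d k n := by
    rw [invariant_iff]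
    intro c
    change x c = x (stdCol n (count c))
    rw [hx, hx, count_stdCol _ (count_le c)]
  refine ⟨⟨⟨x, hmem⟩, hinv⟩, ?_⟩
  funext m
  change x (stdCol n m.1) = y m
  rw [hx, count_stdCol _ (Nat.lt_succ_iff.mp m.1.2)]
  have h : ∃ h : m.1.val < n + 1, ((n.choose m.1 : ℕ) : k) = 0 := ⟨m.1.2, m.2⟩
  simp only [y', dif_pos h]

theorem finrank_invariants (p : ℕ) [CharP k p] :
    Module.finrank k (invSub d k n) =
      ((Finset.range (n + 1)).filter (fun a => p ∣ n.choose a)).card := by
  classical
  rw [LinearEquiv.finrank_eq (LinearEquiv.ofBijective (evalMap d k n)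
    ⟨evalMap_injective, evalMap_surjective⟩), Module.finrank_fintype_fun_eq_card,
    Fintype.card_subtype]
  refine Finset.card_bij (fun a _ => a.val) ?_ ?_ ?_
  · intro a ha
    rw [Finset.mem_filter] at ha ⊢
    exact ⟨Finset.mem_range.2 a.2, (CharP.cast_eq_zero_iff k p _).1 ha.2⟩
  · intro a _ b _ h
    exact Fin.ext h
  · intro b hb
    rw [Finset.mem_filter, Finset.mem_range] at hb
    refine ⟨⟨b, hb.1⟩, ?_, rfl⟩
    rw [Finset.mem_filter]
    exact ⟨Finset.mem_univ _, (CharP.cast_eq_zero_iff k p _).2 hb.2⟩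

end invariants

theorem finite_obj (n : ℕ) : Module.Finite k ((modV d k).obj (FI.std d n)) := by
  have h : Module.Finite k ((Fin n → Bool) →₀ k) := inferInstance
  exact (inferInstance : Module.Finite k (kerSub k (FI.std d n)))

/-- the zeroth cohomology -/
theorem finrank_H0 (p : ℕ) [CharP k p] (n : ℕ) :
    Module.finrank k (groupCohomology (Rep.of (symRep (modV d k) n)) 0) =
      ((Finset.range (n + 1)).filter (fun a => p ∣ n.choose a)).card := by
  have e := (groupCohomology.H0Iso (Rep.of (symRep (modV d k) n))).toLinearEquiv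
  rw [LinearEquiv.finrank_eq e]
  exact finrank_invariants (d := d) p

theorem finite_H0 (n : ℕ) :
    Module.Finite k (groupCohomology (Rep.of (symRep (modV d k) n)) 0) := by
  have e := (groupCohomology.H0Iso (Rep.of (symRep (modV d k) n))).toLinearEquiv
  have h : Module.Finite k ((modV d k).obj (FI.std d n)) := finite_obj n
  have h2 : Module.Finite k (Rep.of (symRep (modV d k) n)).ρ.invariants := by
    have : Module.Finite k (Rep.of (symRep (modV d k) n)) := h
    infer_instance
  exact Module.Finite.equiv e.symm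

/-! ### Not a quasi-polynomial -/

section qp

/-- the number of binomial coefficients divisible by `p` -/
def cnt (p n : ℕ) : ℕ := ((Finset.range (n + 1)).filter (fun a => p ∣ n.choose a)).card

theorem not_dvd_choose (p : ℕ) [hp : Fact p.Prime] (j : ℕ) :
    ∀ a, a ≤ p ^ j - 1 → ¬ p ∣ (p ^ j - 1).choose a := by
  intro a
  induction a with
  | zero =>
    intro _ h
    rw [Nat.choose_zero_right, Nat.dvd_one] at h
    exact hp.out.one_lt.ne' h
  | succ a ih =>
    intro ha h
    have hpos : 0 < p ^ j := pow_pos hp.out.pos j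
    have h1 := Nat.choose_succ_succ (p ^ j - 1) a
    rw [Nat.succ_eq_add_one, Nat.succ_eq_add_one, Nat.sub_add_cancel hpos] at h1
    have h2 : p ∣ (p ^ j).choose (a + 1) := by
      rw [hp.out.dvd_choose_pow_iff]
      omega
    rw [h1] at h2
    exact ih (by omega) ((Nat.dvd_add_left h).1 h2)

theorem cnt_zero (p : ℕ) [hp : Fact p.Prime] (j : ℕ) : cnt p (p ^ j - 1) = 0 := by
  rw [cnt, Finset.card_eq_zero, Finset.filter_eq_empty_iff]
  intro a ha
  rw [Finset.mem_range] at ha
  exact not_dvd_choose p j a (by omega)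

theorem cnt_pos (p : ℕ) [hp : Fact p.Prime] (j N : ℕ) (hN : 1 ≤ N) (hj : N < p ^ j) :
    0 < cnt p (p ^ j - 1 + N) := by
  rw [cnt, Finset.card_pos]
  refine ⟨N, ?_⟩
  rw [Finset.mem_filter, Finset.mem_range]
  refine ⟨by omega, ?_⟩
  by_contra hnd
  have h1 := Nat.choose_succ_right_eq (p ^ j - 1 + N) (N - 1)
  rw [Nat.sub_add_cancel hN] at h1
  have h2 : p ^ j - 1 + N - (N - 1) = p ^ j := by omega
  rw [h2] at h1
  have h3 : p ^ j ∣ (p ^ j - 1 + N).choose N * N := ⟨_, by rw [h1, mul_comm]⟩
  have h4 : Nat.Coprime (p ^ j) ((p ^ j - 1 + N).choose N) :=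
    Nat.Coprime.pow_left j ((Nat.Prime.coprime_iff_not_dvd hp.out).2 hnd)
  have h5 := h4.dvd_of_dvd_mul_left h3
  exact absurd (Nat.le_of_dvd hN h5) (by omega)

theorem not_qp (p : ℕ) [hp : Fact p.Prime] : ¬ EventuallyQuasiPolynomial (cnt p) := by
  rintro ⟨N, hN, P, n₀, h⟩
  have hNpos : 0 < N := hN
  obtain ⟨r, hr⟩ := Finite.exists_infinite_fiber
    (fun j : ℕ => (⟨(p ^ j - 1) % N, Nat.mod_lt _ hNpos⟩ : Fin N))
  have hr' : Set.Infinite {j : ℕ | (p ^ j - 1) % N = r.val} := by
    have h1 := Set.infinite_coe_iff.1 hr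
    refine h1.mono ?_
    intro j hj
    have h2 : (⟨(p ^ j - 1) % N, Nat.mod_lt _ hNpos⟩ : Fin N) = r := hj
    exact congrArg Fin.val h2
  have hlarge : ∀ m : ℕ, m < p ^ m := fun m => Nat.lt_pow_self hp.out.one_lt
  -- the polynomial of the residue class r vanishes
  have hP : P r.val = 0 := by
    apply Polynomial.eq_zero_of_infinite_isRoot
    have h2 : Set.Infinite ((fun j : ℕ => ((p ^ j - 1 : ℕ) : ℚ)) ''
        ({j : ℕ | (p ^ j - 1) % N = r.val} \ {j | j < n₀ + 1})) := by
      apply Set.Infinite.image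
      · intro a _ b _ hab
        have h3 : (p ^ a - 1 : ℕ) = p ^ b - 1 := Nat.cast_injective (R := ℚ) hab
        have h4 : 0 < p ^ a := pow_pos hp.out.pos a
        have h5 : 0 < p ^ b := pow_pos hp.out.pos b
        exact Nat.pow_right_injective hp.out.two_le (by show p ^ a = p ^ b; omega)
      · exact hr'.sdiff (Set.finite_lt_nat _)
    refine h2.mono ?_
    rintro _ ⟨j, ⟨hj, hj2⟩, rfl⟩
    have hj3 : n₀ + 1 ≤ j := not_lt.mp hj2
    have h4 := h (p ^ j - 1) (by have := hlarge j; omega)
    have hj4 : (p ^ j - 1) % N = r.val := hj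
    rw [cnt_zero, hj4, Nat.cast_zero] at h4
    exact h4.symm
  -- a large j in the fibre
  obtain ⟨j, hj, hj2⟩ := hr'.exists_gt (n₀ + N)
  have hj3 := hlarge j
  have h4 := h (p ^ j - 1 + N) (by omega)
  have hj4 : (p ^ j - 1) % N = r.val := hj
  rw [Nat.add_mod_right, hj4, hP, Polynomial.eval_zero] at h4
  have h5 := cnt_pos p j N hN (by omega)
  have h6 : cnt p (p ^ j - 1 + N) = 0 := by exact_mod_cast h4
  omega

end qp

end

/-- **Q1 of MP_93a4b1_al is false.** Let `k` be a field of characteristic `p > 0` and let `d ≥ 2`.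
There is a finitely generated `FI_d`-module `V` over `k` (with finite-dimensional values) such that
`dim H⁰(S_n, V_n)` is, for every `n`, the number of `0 ≤ a ≤ n` such that `p` divides the binomial
coefficient `n.choose a`, and this function does not eventually agree with any quasi-polynomial,
of any degree. -/
theorem result (p : ℕ) [Fact p.Prime] (k : Type) [Field k] [CharP k p] (d : ℕ) (hd : 2 ≤ d) :
    ∃ V : FI d ⥤ ModuleCat.{0} k, IsFinitelyGenerated V ∧
      (∀ n, Module.Finite k (V.obj (FI.std d n))) ∧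
      (∀ n, Module.Finite k (groupCohomology (Rep.of (symRep V n)) 0)) ∧
      (∀ n, Module.finrank k (groupCohomology (Rep.of (symRep V n)) 0) =
        ((Finset.range (n + 1)).filter (fun a => p ∣ n.choose a)).card) ∧
      ¬ EventuallyQuasiPolynomial
        (fun n => Module.finrank k (groupCohomology (Rep.of (symRep V n)) 0)) := by
  refine ⟨modV d k, modV_fg hd, finite_obj, finite_H0, finrank_H0 p, ?_⟩
  have h : (fun n => Module.finrank k (groupCohomology (Rep.of (symRep (modV d k) n)) 0)) =
      cnt p := by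
    funext n
    exact finrank_H0 p n
  rw [h]
  exact not_qp p

end Pool.Agent.Results.MP_93a4b1_al.NotQuasiPolynomial
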